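import Pool.Agent.W593.ZT.Stm

set_option autoImplicit false

/-!
Order three, first level of the recursion.
-/

open scoped Classical

namespace Pool.Agent.W358.ZT

open Pool.Agent.W593.ZT

theorem mem_wr {V G : Type} [AddCommGroup G] {c : V → V → G} {T : AddSubgroup G} {a : G}
    {W H : Finset V} {z : V} :
    z ∈ wr c T a W H ↔ z ∈ W \ H ∧ ¬ ∀ h ∈ H, c z h - a ∈ T := by
  unfold wr; exact Finset.mem_filter

theorem mem_va {V G : Type} [AddCommGroup G] {c : V → V → G} {T : AddSubgroup G} {a : G}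
    {W H : Finset V} {z : V} :
    z ∈ va c T a W H ↔ z ∈ W \ H ∧ ∀ h ∈ H, c z h - a ∈ T := by
  unfold va; exact Finset.mem_filter

theorem wok_x {V G : Type} [Fintype V] [AddCommGroup G] [Fintype G] (c : V → V → G)
    (M : AddSubgroup G) (B W : Finset V) (h : Wok c M B W) :
    ∃ X : Finset V, X.card ≤ 1 ∧ (∀ z, z ∉ W → z ∈ X) ∧ ∀ z ∈ X, z ∈ Us c M B := by
  rcases h with ⟨rfl, -⟩ | ⟨y, hy, -, rfl⟩
  · exact ⟨∅, by simp, fun z hz => absurd (Finset.mem_univ z) hz, by simp⟩
  · refine ⟨{y}, by simp, fun z hz => ?_, fun z hz => ?_⟩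
    · rw [Finset.mem_singleton]
      by_contra hne
      exact hz (Finset.mem_erase.mpr ⟨hne, Finset.mem_univ z⟩)
    · rw [Finset.mem_singleton.mp hz]; exact hy

theorem K3L1 (hW : S_K3W) (hD : S_K3D1) : S_K3L1 := by
  intro V G _ _ _ c M B W b1 S' a Hp z0 s hK hWok hb1 hP hx1 hx2 hx3 hs
  obtain ⟨hU, hcard, hB, hsum⟩ := hW V G c M B hK
  obtain ⟨X, hX1, hXW, hXU⟩ := wok_x c M B W hWok
  have hnu := hK.nu
  set ν := (nc c M Finset.univ B).card with hν
  set q := M.index with hq
  set v := S'.index with hv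
  have hv2 : 2 ≤ v := by
    have h1 : v ≠ 1 := fun h => hP.ne (AddSubgroup.index_eq_one.mp h)
    have h2 : v ≠ 0 := AddSubgroup.index_ne_zero_of_finite
    omega
  -- `nc` in `W`
  have hnc : ν ≤ (nc c M W B).card := by
    refine Finset.card_le_card fun z hz => ?_
    have hz' := Finset.mem_filter.mp hz
    have hzB : z ∉ B := (Finset.mem_sdiff.mp hz'.1).2
    have hzW : z ∈ W := by
      by_contra h
      have h1 := hXU z (hXW z h)
      exact (Finset.mem_sdiff.mp h1).2 hz
    exact Finset.mem_filter.mpr ⟨Finset.mem_sdiff.mpr ⟨hzW, hzB⟩, hz'.2⟩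
  have hHp : (Hp \ B).card + ν + 1 ≤ q := by
    have : ν ≤ min (nc c M W B).card (q - 1) := le_min hnc (by omega)
    omega
  have hwr := hP.wrb
  -- the sum
  have h1 : 2 ≤ ∑ z ∈ Us c M B ∩ va c S' a W Hp, ((Cs c B z).card - 1) := by
    have hsplit := Finset.sum_sdiff (f := fun z => (Cs c B z).card - 1)
      (Finset.inter_subset_left (s₁ := Us c M B) (s₂ := va c S' a W Hp))
    have hsub : Us c M B \ (Us c M B ∩ va c S' a W Hp) ⊆ X ∪ (Hp \ B) ∪ wr c S' a W Hp := by
      intro z hz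
      obtain ⟨hzU, hzv⟩ := Finset.mem_sdiff.mp hz
      have hzB : z ∉ B := (Finset.mem_sdiff.mp (Finset.mem_sdiff.mp hzU).1).2
      by_cases hzW : z ∈ W
      · by_cases hzH : z ∈ Hp
        · exact Finset.mem_union_left _ (Finset.mem_union_right _
            (Finset.mem_sdiff.mpr ⟨hzH, hzB⟩))
        · refine Finset.mem_union_right _ (mem_wr.mpr
            ⟨Finset.mem_sdiff.mpr ⟨hzW, hzH⟩, fun hall => ?_⟩)
          exact hzv (Finset.mem_inter.mpr ⟨hzU, mem_va.mpr
            ⟨Finset.mem_sdiff.mpr ⟨hzW, hzH⟩, hall⟩⟩)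
      · exact Finset.mem_union_left _ (Finset.mem_union_left _ (hXW z hzW))
    have hc1 := Finset.card_le_card hsub
    have hc2 := Finset.card_union_le (X ∪ (Hp \ B)) (wr c S' a W Hp)
    have hc3 := Finset.card_union_le X (Hp \ B)
    have hle : ∑ z ∈ Us c M B \ (Us c M B ∩ va c S' a W Hp), ((Cs c B z).card - 1) ≤
        (Us c M B \ (Us c M B ∩ va c S' a W Hp)).card * 2 := by
      rw [← smul_eq_mul, ← Finset.sum_const]
      refine Finset.sum_le_sum fun z hz => ?_
      have := (hU z (Finset.mem_sdiff.mp hz).1).2.2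
      omega
    omega
  -- the number of vertices
  have h2 : 2 * v + s ≤ (W \ Hp).card + 1 := by
    have hc1 : (Finset.univ \ B).card ≤ (W \ B).card + X.card := by
      refine le_trans (Finset.card_le_card ?_) (Finset.card_union_le (W \ B) X)
      intro z hz
      by_cases hzW : z ∈ W
      · exact Finset.mem_union_left _ (Finset.mem_sdiff.mpr ⟨hzW, (Finset.mem_sdiff.mp hz).2⟩)
      · exact Finset.mem_union_right _ (hXW z hzW)
    have hc2 : (W \ B).card ≤ (W \ Hp).card + (Hp \ B).card := by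
      refine le_trans (Finset.card_le_card ?_) (Finset.card_union_le (W \ Hp) (Hp \ B))
      intro z hz
      obtain ⟨hzW, hzB⟩ := Finset.mem_sdiff.mp hz
      by_cases hzH : z ∈ Hp
      · exact Finset.mem_union_right _ (Finset.mem_sdiff.mpr ⟨hzH, hzB⟩)
      · exact Finset.mem_union_left _ (Finset.mem_sdiff.mpr ⟨hzW, hzH⟩)
    have hs2 : 2 * (s + 1) ≤ q := by
      calc 2 * (s + 1) = (s + 1) * 2 := by ring
        _ ≤ (s + 1) * v := Nat.mul_le_mul_left _ hv2
        _ ≤ q := hx2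
    have hsz := hK.sz
    rw [← hν] at hsz
    omega
  exact hD V G c M B W b1 S' a Hp z0 s hK hb1 hP h1 h2

end Pool.Agent.W358.ZT
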